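import Pool.Agent.Lib.MP_29e17e_pr.G.Fn

set_option autoImplicit false

open Filter Topology Pool.Agent.PERC29 Pool.Agent.PERC29.AE Pool.Agent.PERC29.GU

namespace Pool.Agent.Results.MP_29e17e_pr.GiantAboveWindow

/-- Percolation on the torus `(ℤ/nℤ)^d`, `d ≥ 11`, `V = n^d`, at `p_c(T;λ)(1 + ε)` for every `ε → 0` with
`ε V^{1/3} → ∞`: the largest cluster has `(c + o(1)) ε V` vertices in probability, all the other clusters have
`o(ε V)` vertices, and the constant `c > 0` is the right derivative of `θ(p_c(1 + e))` at `e = 0`, which exists.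
`pc = p_c(ℤ^d)` is the supremum of the `p` with `θ(p) = 0`; the only hypothesis is the (published) upper bound on
the two-point function at and below `p_c`, in boxes. -/
theorem result :
    ∀ (d : ℕ) (C c₀ pc : ℝ), 11 ≤ d → 0 < c₀ → pc = sSup {p : ℝ | 0 ≤ p ∧ p ≤ 1 ∧ theta d p = 0} →
      (∀ (l : ℕ) (x y : Fin d → Fin l) (s : ℝ), 0 ≤ s → s ≤ c₀ →
        tau (boxG d l) (pc - s) x y ≤
          C / (1 + (nd x y : ℝ)) ^ (d - 2) * Real.exp (-(c₀ * Real.sqrt s * (nd x y : ℝ)))) →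
      IsGreatest {p : ℝ | 0 ≤ p ∧ p ≤ 1 ∧ theta d p = 0} pc ∧
      ∃ c : ℝ, 0 < c ∧ HasDerivWithinAt (fun e : ℝ => theta d (pc * (1 + e))) c (Set.Ici 0) 0 ∧
        ∀ lam : ℝ, 0 < lam → ∀ pT : ℕ → ℝ,
          (∀ᶠ n : ℕ in atTop, 0 ≤ pT n ∧ pT n ≤ 1 ∧
            chi (torG d (n + 3)) (pT n) 0 = lam * (((n : ℝ) + 3) ^ d) ^ ((1 : ℝ) / 3)) →
          ∀ ε : ℕ → ℝ, Tendsto ε atTop (𝓝 0) →
            Tendsto (fun n : ℕ => ε n * (((n : ℝ) + 3) ^ d) ^ ((1 : ℝ) / 3)) atTop atTop → ∀ δ : ℝ, 0 < δ →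
            Tendsto (fun n : ℕ => prob (torG d (n + 3)) (pT n * (1 + ε n)) (fun ω =>
              δ * ε n * ((n : ℝ) + 3) ^ d <
                |(maxCluster (torG d (n + 3)) ω : ℝ) - c * ε n * ((n : ℝ) + 3) ^ d|)) atTop (𝓝 0) ∧
            Tendsto (fun n : ℕ => prob (torG d (n + 3)) (pT n * (1 + ε n)) (fun ω => ∃ x y,
              ¬ (openGraph (torG d (n + 3)) ω).Reachable x y ∧
              δ * ε n * ((n : ℝ) + 3) ^ d < (clusterSize (torG d (n + 3)) ω x : ℝ) ∧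
              δ * ε n * ((n : ℝ) + 3) ^ d < (clusterSize (torG d (n + 3)) ω y : ℝ))) atTop (𝓝 0) := by
  intro d C c₀ pc hd hc₀ hpc hU
  exact finalU d C c₀ pc hd hc₀ hpc hU

end Pool.Agent.Results.MP_29e17e_pr.GiantAboveWindow
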