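import Pool.Agent.Lib.MP_29e17e_pr.Brd

set_option autoImplicit false

open Pool.Agent.PERC29

namespace Pool.Agent.Results.MP_29e17e_pr.MeanFieldRange

/-- A matching lower bound, in probability, for the size of the largest cluster above the scaling
window, in the whole mean-field range. -/
theorem result :
    ∀ (k : ℕ) (C η : ℝ), 1 ≤ k → 0 < η → ∃ c : ℝ, 0 < c ∧
      ∀ (V : Type) [Fintype V] (G : SimpleGraph V) (D : ℕ) (o : V) (p q : ℝ),
        (∀ x y : V, ∃ φ : G ≃g G, φ x = y) →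
        1 ≤ D → (∀ x : V, Nat.card (G.neighborSet x) = D) →
        0 < p → p < q → q < 1 → q * D ≤ C →
        (∀ r : ℝ, p ≤ r → r ≤ q → ∀ n : ℕ, 1 ≤ n →
          prob G r (fun ω => n ≤ clusterSize G ω o) ≤ C * (1 / Real.sqrt n + D * (r - p))) →
        (∀ j : ℕ, 1 ≤ j → j ≤ 2 * k → conv G p (4 * j) o o ≤
          C * (chi G p o ^ (3 * (j - 1)) + chi G p o ^ (4 * j) / (Fintype.card V))) →
        Fintype.card V ≤ C * chi G p o ^ (k + 3) →
        chi G p o ^ 3 ≤ c * (Fintype.card V) →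
        p + 1 / (c * D * chi G p o) ≤ q →
        1 - η ≤ prob G q (fun ω => c * (Fintype.card V) / chi G p o ≤ (maxCluster G ω : ℝ)) := by
  intro k C η hk hη
  obtain ⟨i, hi1, hi2⟩ := exists_pow2 k hk
  refine ⟨lf (max C 1) η i, lf_pos (le_max_right _ _) i, ?_⟩
  intro V _ G D o p q htrans hD1 hD h0 hpq hq hqD hT hQ hVK hV hpq2
  classical
  have hCC : C ≤ max C 1 := le_max_left _ _
  have hC1 : 0 < max C 1 := lt_of_lt_of_le one_pos (le_max_right _ _)
  have hchi : 1 ≤ chi G p o := by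
    rw [chi_eq]
    have := Ex_mono h0.le (hpq.trans hq).le (f := fun _ : G.edgeSet → Bool => (1 : ℝ))
      (g := fun ω => cz (gends G) ω o) (fun ω => one_le_cz ω o)
    rwa [Ex_const] at this
  apply main_graph2 G i (le_max_right _ _) hη D hD1 o p q htrans hD h0 hpq hq (hqD.trans hCC)
  · intro r hpr hrq n hn
    refine (hT r hpr hrq n hn).trans ?_
    apply mul_le_mul_of_nonneg_right hCC
    have h1 : 0 ≤ (D : ℝ) * (r - p) := mul_nonneg (Nat.cast_nonneg _) (by linarith)
    have h2 : 0 ≤ 1 / Real.sqrt (n : ℝ) := by positivity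
    linarith
  · intro j hj1 hj2
    refine (hQ j hj1 (hj2.trans hi2)).trans ?_
    apply mul_le_mul_of_nonneg_right hCC
    have h1 : (0 : ℝ) ≤ (Fintype.card V : ℝ) := Nat.cast_nonneg _
    have h2 : 0 ≤ chi G p o := by linarith
    positivity
  · refine hVK.trans ?_
    have h2 : chi G p o ^ (k + 3) ≤ chi G p o ^ (2 ^ i + 3) := pow_le_pow_right₀ hchi (by omega)
    have h3 : 0 ≤ chi G p o ^ (k + 3) := by positivity
    exact mul_le_mul hCC h2 h3 hC1.le
  · exact hV
  · exact hpq2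

end Pool.Agent.Results.MP_29e17e_pr.MeanFieldRange
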