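import Pool.Agent.Lib.MP_29e17e_pr.U.Gr

set_option autoImplicit false

open Pool.Agent.PERC29

namespace Pool.Agent.Results.MP_29e17e_pr.UniqueGiant

/-- **The giant cluster is unique and its size is concentrated, above the scaling window, in the
strictly mean-field range.**

`G` is a Cayley graph of a finite abelian group with `V` elements (for example a torus), `D` is its
degree, `χ = chi G p 0` is the mean cluster size at the lower level `p`, and the upper level `q` lies
between `p + 1 / (c₀ D χ)` and `p + L / (D χ)`.  Hypotheses: the tail bound for the cluster sizes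
between `p` and `q`; bounds for the powers of the two-point function at `p`; the spectral gap
`τ^{2m}(0,0) ≤ (1 + δ) χ^{2m} / V` for one power `2m = 2 * 2 ^ i`; the open triangle
`τ^3(0,z) ≤ δ` for one point `z` at distance `r`; and `χ ^ 3 ≤ c V`, `V ≤ C χ ^ (m + 2)`.
Then, at the level `q`, with probability at least `1 - η` there are no two different clusters with
`η V / χ` vertices, and with probability at least `1 - η` the largest cluster has between
`(1 - η) m` and `(1 + η) m` vertices, for a number `m ≥ c₀ V / χ`. -/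
theorem result :
    ∀ (i : ℕ) (C η : ℝ), 1 ≤ i → 0 < η → ∃ c₀ : ℝ, 0 < c₀ ∧ ∀ L : ℝ, ∃ δ : ℝ, 0 < δ ∧
      ∀ r D : ℕ, ∃ c : ℝ, 0 < c ∧
      ∀ (V : Type) [Fintype V] [AddCommGroup V] (G : SimpleGraph V) (p q : ℝ) (z : V),
        (∀ x y g : V, G.Adj (x + g) (y + g) ↔ G.Adj x y) →
        1 ≤ D → (∀ x : V, Nat.card (G.neighborSet x) = D) →
        0 < p → p < q → q < 1 → q * D ≤ C →
        (∀ s : ℝ, p ≤ s → s ≤ q → ∀ n : ℕ, 1 ≤ n →
          prob G s (fun ω => n ≤ clusterSize G ω 0) ≤ C * (1 / Real.sqrt n + D * (s - p))) →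
        (∀ n : ℕ, 2 ≤ n → n ≤ 2 * 2 ^ i → conv G p (2 * n) 0 0 ≤
          C * (chi G p 0 ^ (n - 2) + chi G p 0 ^ (2 * n) / (Fintype.card V))) →
        conv G p (2 * 2 ^ i) 0 0 ≤ (1 + δ) * chi G p 0 ^ (2 * 2 ^ i) / (Fintype.card V) →
        conv G p 3 0 z ≤ δ → (∃ w : G.Walk 0 z, w.length = r) →
        Fintype.card V ≤ C * chi G p 0 ^ (2 ^ i + 2) →
        chi G p 0 ^ 3 ≤ c * (Fintype.card V) →
        p + 1 / (c₀ * D * chi G p 0) ≤ q → q ≤ p + L / (D * chi G p 0) →
        prob G q (fun ω => ∃ x y, ¬ (openGraph G ω).Reachable x y ∧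
          η * (Fintype.card V) / chi G p 0 ≤ (clusterSize G ω x : ℝ) ∧
          η * (Fintype.card V) / chi G p 0 ≤ (clusterSize G ω y : ℝ)) ≤ η ∧
        ∃ m : ℝ, c₀ * (Fintype.card V) / chi G p 0 ≤ m ∧
          prob G q (fun ω => η * m < |(maxCluster G ω : ℝ) - m|) ≤ η := by
  intro i C η hi hη
  obtain ⟨c₀, hc₀, h1⟩ := giant_graph i hi (C := max C 1) (η := min η 1) (le_max_right _ _)
    (lt_min hη one_pos) (min_le_right _ _)
  refine ⟨c₀, hc₀, fun L => ?_⟩
  obtain ⟨δ, hδ, h2⟩ := h1 (max L 1) (le_max_right _ _)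
  refine ⟨δ, hδ, fun r D => ?_⟩
  rcases Nat.eq_zero_or_pos D with hD0 | hD0
  · refine ⟨1, one_pos, ?_⟩
    intro V _ _ G p q z _ hD1
    omega
  obtain ⟨c, hc, h3⟩ := h2 r D hD0
  refine ⟨c, hc, ?_⟩
  intro V _ _ G p q z hG hD1 hD h0 hpq hq hqD hT hQ hS hO hW hVK hV hlow hup
  classical
  have hCC : C ≤ max C 1 := le_max_left _ _
  have hchi : 1 ≤ chi G p 0 := by
    rw [chi_eq]
    have := Ex_mono h0.le (hpq.trans hq).le (f := fun _ : G.edgeSet → Bool => (1 : ℝ))
      (g := fun ω => cz (gends G) ω 0) (fun ω => one_le_cz ω 0)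
    rwa [Ex_const] at this
  have hN0 : (0 : ℝ) < (Fintype.card V : ℝ) := by
    have : 0 < Fintype.card V := Fintype.card_pos_iff.2 ⟨0⟩
    exact_mod_cast this
  have hDr : (0 : ℝ) < D := by exact_mod_cast hD0
  have hχ0 : 0 < chi G p 0 := by linarith
  obtain ⟨a1, m, hm, a2⟩ := h3 V G p q z hG hD h0 hpq hq (hqD.trans hCC)
    (fun s hs hs2 n hn => by
      refine (hT s hs hs2 n hn).trans ?_
      apply mul_le_mul_of_nonneg_right hCC
      have e1 : 0 ≤ (D : ℝ) * (s - p) := mul_nonneg (Nat.cast_nonneg _) (by linarith)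
      have e2 : 0 ≤ 1 / Real.sqrt (n : ℝ) := by positivity
      linarith)
    (fun n hn hn2 => (hQ n hn hn2).trans (mul_le_mul_of_nonneg_right hCC (by positivity)))
    hS hO hW (hVK.trans (mul_le_mul_of_nonneg_right hCC (by positivity))) hV hlow
    (hup.trans (by
      have : L / (D * chi G p 0) ≤ max L 1 / (D * chi G p 0) :=
        div_le_div_of_nonneg_right (le_max_left _ _) (by positivity)
      linarith))
  have hmη : min η 1 ≤ η := min_le_left _ _
  have hm0 : 0 ≤ m := le_trans (by positivity) hm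
  have hq0 : 0 ≤ q := (h0.trans hpq).le
  refine ⟨?_, m, hm, ?_⟩
  · refine le_trans ?_ (a1.trans hmη)
    unfold prob
    rw [expect_eq, expect_eq]
    refine Ex_mono hq0 hq.le fun ω => ?_
    by_cases h : ∃ x y, ¬ (openGraph G ω).Reachable x y ∧
          η * (Fintype.card V) / chi G p 0 ≤ (clusterSize G ω x : ℝ) ∧
          η * (Fintype.card V) / chi G p 0 ≤ (clusterSize G ω y : ℝ)
    · have h' : ∃ x y, ¬ (openGraph G ω).Reachable x y ∧
          min η 1 * (Fintype.card V) / chi G p 0 ≤ (clusterSize G ω x : ℝ) ∧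
          min η 1 * (Fintype.card V) / chi G p 0 ≤ (clusterSize G ω y : ℝ) := by
        obtain ⟨x, y, b1, b2, b3⟩ := h
        have e : min η 1 * (Fintype.card V) / chi G p 0 ≤ η * (Fintype.card V) / chi G p 0 :=
          div_le_div_of_nonneg_right (mul_le_mul_of_nonneg_right hmη hN0.le) hχ0.le
        exact ⟨x, y, b1, e.trans b2, e.trans b3⟩
      rw [if_pos h, if_pos h']
    · rw [if_neg h]
      split_ifs <;> norm_num
  · refine le_trans ?_ (a2.trans hmη)
    unfold prob
    rw [expect_eq, expect_eq]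
    refine Ex_mono hq0 hq.le fun ω => ?_
    by_cases h : η * m < |(maxCluster G ω : ℝ) - m|
    · have h' : ¬ |(maxCluster G ω : ℝ) - m| ≤ min η 1 * m := by
        have e : min η 1 * m ≤ η * m := mul_le_mul_of_nonneg_right hmη hm0
        push Not
        linarith
      rw [if_pos h, if_pos h']
    · rw [if_neg h]
      split_ifs <;> norm_num

end Pool.Agent.Results.MP_29e17e_pr.UniqueGiant
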